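import Pool.Agent.D0H45.PG.Stm
import Pool.Agent.D0H71.CM.Lin

/-! Project PG: intervals near real linear forms in the values of compositions of multiplicative functions are rich. -/

set_option autoImplicit false

namespace Pool.Agent.D0H45.PG

open Finset Classical Pool.Agent.Q240.KS
open Pool.Agent.D0H71.CM (Comp av_comp comp_pos NearLin count_near_lin ckeep_tuples)

/-- the integer parts of the elements of `S`, and the numbers below `V` -/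
def BSet (S : Set ℝ) (V : ℕ) : Set ℕ := {n : ℕ | n < V ∨ ∃ t ∈ S, ⌊t⌋₊ = n}

/-- the number of the integer parts of the elements of `S` -/
lemma count_floor {lam e0 c η x₀ : ℝ} {S : Set ℝ} (h : Grid lam e0 c η x₀ S) (V : ℕ) : ∃ C : ℝ, ∀ X : ℕ, 1 ≤ X →
    (((Icc 1 X).filter (fun n => n ∈ BSet S V)).card : ℝ) ≤ C * (X : ℝ) ^ (e0 - η) := by
  obtain ⟨C, hC⟩ := h.count
  have hη := h.η0
  have hη2 := h.η2
  refine ⟨V + C * 2 ^ (e0 - η), fun X hX => ?_⟩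
  have hX1 : (1 : ℝ) ≤ X := by exact_mod_cast hX
  obtain ⟨hfin, hcard⟩ := hC (2 * X) (by linarith)
  have hp : 1 ≤ (X : ℝ) ^ (e0 - η) := Real.one_le_rpow hX1 (by linarith)
  have h1 : ((Icc 1 X).filter (fun n => n ∈ BSet S V)) ⊆
      range V ∪ hfin.toFinset.image (fun t => ⌊t⌋₊) := by
    intro n hn
    rw [mem_filter, mem_Icc] at hn
    obtain ⟨⟨h1, h2⟩, h3⟩ := hn
    rw [mem_union, mem_range, mem_image]
    rcases h3 with h3 | ⟨t, ht, htn⟩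
    · exact Or.inl h3
    · right
      refine ⟨t, ?_, htn⟩
      rw [Set.Finite.mem_toFinset]
      refine ⟨ht, ?_⟩
      have h4 := Nat.lt_floor_add_one t
      rw [htn] at h4
      have h5 : (n : ℝ) ≤ X := by exact_mod_cast h2
      linarith
  have h2 : (((Icc 1 X).filter (fun n => n ∈ BSet S V)).card : ℝ) ≤
      V + ({t | t ∈ S ∧ t ≤ 2 * (X : ℝ)}.ncard : ℝ) := by
    have h3 := (card_le_card h1).trans (card_union_le _ _)
    have h4 : (hfin.toFinset.image (fun t => ⌊t⌋₊)).card ≤ {t | t ∈ S ∧ t ≤ 2 * (X : ℝ)}.ncard := by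
      rw [Set.ncard_eq_toFinset_card _ hfin]
      exact card_image_le
    rw [card_range] at h3
    have h5 := h3.trans (Nat.add_le_add_left h4 V)
    generalize {t | t ∈ S ∧ t ≤ 2 * (X : ℝ)}.ncard = K at h5
    exact_mod_cast h5
  calc _ ≤ (V : ℝ) + ({t | t ∈ S ∧ t ≤ 2 * (X : ℝ)}.ncard : ℝ) := h2
    _ ≤ V * (X : ℝ) ^ (e0 - η) + C * (2 * (X : ℝ)) ^ (e0 - η) :=
      add_le_add (le_mul_of_one_le_right (Nat.cast_nonneg _) hp) hcard
    _ = (V + C * 2 ^ (e0 - η)) * (X : ℝ) ^ (e0 - η) := by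
      rw [Real.mul_rpow (by norm_num) (by linarith)]
      ring

/-- **LIN**: intervals near real linear forms in the values of compositions are rich -/
theorem lin {lam e0 c η x₀ : ℝ} {S : Set ℝ} (h : Grid lam e0 c η x₀ S) (hle : e0 ≤ lam) {κ : ℝ} (hκ : 0 ≤ κ)
    (hκ1 : κ + e0 ≤ 1) {k : ℕ} {F : Fin k → ℕ → ℕ} (hF : ∀ i, Comp (F i)) {α : Fin k → ℝ} (hα : α ≠ 0) (U : ℕ) :
    ∃ N₀ : ℕ, ∀ N : ℕ, N₀ ≤ N →
      ({m : Fin k → ℕ | (∀ i, 1 ≤ m i ∧ m i ≤ N) ∧ ¬ ∀ x : ℝ, 1 ≤ x →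
        |x - ∑ i, α i * (F i (m i) : ℝ)| ≤ (∑ i, (F i (m i) : ℝ)) ^ κ →
        c * x ^ (1 - lam - η) / Real.log x ≤ (pic x (x ^ (1 - lam - η)) : ℝ)}.ncard : ℝ) ≤
        (N : ℝ) ^ k / Real.log N ^ U := by
  have hη := h.η0
  have hη1 := h.η1
  have hη2 := h.η2
  obtain ⟨j, hj⟩ : ∃ j, α j ≠ 0 := by
    by_contra hcon
    push Not at hcon
    exact hα (funext hcon)
  have hk : 1 ≤ k := by
    have := j.2
    omega
  have hkr : (1 : ℝ) ≤ k := by exact_mod_cast hk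
  obtain ⟨θ, hθ⟩ : ∃ θ : ℝ, θ = 1 - lam - η := ⟨_, rfl⟩
  rw [← hθ]
  have hθ0 : 0 ≤ θ := by rw [hθ]; linarith
  have hθ1 : θ ≤ 1 := by rw [hθ]; linarith
  obtain ⟨κ', hκ'⟩ : ∃ κ' : ℝ, κ' = max κ θ + η / 2 := ⟨_, rfl⟩
  have hκκ : κ ≤ κ' := by rw [hκ']; linarith [le_max_left κ θ]
  have hκθ : θ + η / 2 ≤ κ' := by rw [hκ']; linarith [le_max_right κ θ]
  have hκ'0 : 0 ≤ κ' := by linarith
  have hlt : (e0 - η) + κ' < 1 := by
    rw [hκ']
    rcases max_choice κ θ with hm | hm <;> rw [hm]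
    · linarith
    · rw [hθ]; linarith
  obtain ⟨A, hA⟩ : ∃ A : ℝ, A = ∑ i, |α i| := ⟨_, rfl⟩
  have hA0 : 0 ≤ A := by rw [hA]; exact sum_nonneg fun i _ => abs_nonneg _
  obtain ⟨V, hV⟩ : ∃ V : ℕ, V = ⌈x₀⌉₊ := ⟨_, rfl⟩
  obtain ⟨V', hV'⟩ : ∃ V' : ℕ, V' = ⌈(A + 2) ^ (2 / η)⌉₊ := ⟨_, rfl⟩
  obtain ⟨C, hC⟩ := count_floor h V
  obtain ⟨B, hB⟩ : ∃ B : Set ℕ, B = BSet S V := ⟨_, rfl⟩
  rw [← hB] at hC
  obtain ⟨C₀, hC₀⟩ := count_near_lin α hα (B := B) (C := C) (θ := e0 - η) (κ := κ') (by linarith) hκ'0 hlt hC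
  obtain ⟨W, hW⟩ : ∃ W : Set (Fin k → ℕ), W = NearLin α κ' B ∪ {w | ∀ i, w i ≤ V'} := ⟨_, rfl⟩
  have hcW : ∀ X : ℕ, 1 ≤ X → ({w : Fin k → ℕ | w ∈ W ∧ ∀ i, 1 ≤ w i ∧ w i ≤ X}.ncard : ℝ) ≤
      (C₀ + (V' + 1) ^ k) * (X : ℝ) ^ ((k : ℝ) - (1 - (e0 - η) - κ')) := by
    intro X hX
    have hX1 : (1 : ℝ) ≤ X := by exact_mod_cast hX
    have hp : 1 ≤ (X : ℝ) ^ ((k : ℝ) - (1 - (e0 - η) - κ')) := Real.one_le_rpow hX1 (by linarith)
    have h1 : {w : Fin k → ℕ | w ∈ W ∧ ∀ i, 1 ≤ w i ∧ w i ≤ X} ⊆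
        {w : Fin k → ℕ | w ∈ NearLin α κ' B ∧ ∀ i, 1 ≤ w i ∧ w i ≤ X} ∪
          (Fintype.piFinset (fun _ : Fin k => range (V' + 1)) : Finset (Fin k → ℕ)) := by
      rintro w ⟨h1, h2⟩
      rw [hW] at h1
      rcases h1 with h1 | h1
      · exact Or.inl ⟨h1, h2⟩
      · right
        rw [mem_coe, Fintype.mem_piFinset]
        intro i
        rw [mem_range]
        exact Nat.lt_succ_of_le (h1 i)
    have hf1 : {w : Fin k → ℕ | w ∈ NearLin α κ' B ∧ ∀ i, 1 ≤ w i ∧ w i ≤ X}.Finite := by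
      apply (Set.Finite.pi' fun _ : Fin k => Set.finite_Icc 1 X).subset
      intro w hw i
      exact hw.2 i
    have h2 := Set.ncard_le_ncard h1 (hf1.union (finite_toSet _))
    have h3 := h2.trans (Set.ncard_union_le _ _)
    rw [Set.ncard_coe_finset, Fintype.card_piFinset, prod_const, card_range, card_univ, Fintype.card_fin] at h3
    have h4 : ({w : Fin k → ℕ | w ∈ W ∧ ∀ i, 1 ≤ w i ∧ w i ≤ X}.ncard : ℝ) ≤
        ({w : Fin k → ℕ | w ∈ NearLin α κ' B ∧ ∀ i, 1 ≤ w i ∧ w i ≤ X}.ncard : ℝ) + ((V' : ℝ) + 1) ^ k := by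
      exact_mod_cast h3
    have h5 := hC₀ X hX
    have h6 : ((V' : ℝ) + 1) ^ k ≤ ((V' : ℝ) + 1) ^ k * (X : ℝ) ^ ((k : ℝ) - (1 - (e0 - η) - κ')) :=
      le_mul_of_one_le_right (by positivity) hp
    rw [add_mul]
    linarith
  obtain ⟨N₀, hN₀⟩ := ckeep_tuples (F := F) (fun i => av_comp (hF i)) (c := 1 - (e0 - η) - κ') (by linarith)
    (by linarith) U (C₀ + (V' + 1) ^ k)
  refine ⟨N₀, fun N hN => le_trans ?_ (hN₀ N hN W hcW)⟩
  have hfin : {m : Fin k → ℕ | (∀ i, 1 ≤ m i ∧ m i ≤ N) ∧ (fun i => F i (m i)) ∈ W}.Finite := by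
    apply (Set.Finite.pi' fun _ : Fin k => Set.finite_Icc 1 N).subset
    intro m hm i
    exact hm.1 i
  refine Nat.cast_le.2 (Set.ncard_le_ncard ?_ hfin)
  rintro m ⟨h3, h4⟩
  refine ⟨h3, ?_⟩
  push Not at h4
  obtain ⟨x, hx1, hx2, hx3⟩ := h4
  rw [hW]
  obtain ⟨Q, hQ⟩ : ∃ Q : ℝ, Q = ∑ i, (F i (m i) : ℝ) := ⟨_, rfl⟩
  obtain ⟨L, hL⟩ : ∃ L : ℝ, L = ∑ i, α i * (F i (m i) : ℝ) := ⟨_, rfl⟩
  rw [← hQ, ← hL] at hx2
  have hpos : ∀ i, (1 : ℝ) ≤ (F i (m i) : ℝ) := fun i => by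
    exact_mod_cast comp_pos (hF i) _ (h3 i).1
  have hle1 : ∀ i, (F i (m i) : ℝ) ≤ Q := by
    intro i
    rw [hQ]
    exact single_le_sum (f := fun i => (F i (m i) : ℝ)) (fun i _ => by linarith [hpos i]) (mem_univ i)
  have hQ1 : 1 ≤ Q := (hpos j).trans (hle1 j)
  by_cases hsmall : Q ≤ V'
  · right
    intro i
    have := (hle1 i).trans hsmall
    exact_mod_cast this
  left
  push Not at hsmall
  have hLA : |L| ≤ A * Q := by
    rw [hL, hA, sum_mul]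
    refine (abs_sum_le_sum_abs _ _).trans (sum_le_sum fun i _ => ?_)
    rw [abs_mul, abs_of_nonneg (show (0 : ℝ) ≤ F i (m i) by linarith [hpos i])]
    exact mul_le_mul_of_nonneg_left (hle1 i) (abs_nonneg _)
  have hp1 : 1 ≤ Q ^ κ' := Real.one_le_rpow hQ1 hκ'0
  have hp2 : Q ^ κ ≤ Q ^ κ' := Real.rpow_le_rpow_of_exponent_le hQ1 hκκ
  obtain ⟨a1, a2⟩ := abs_le.1 hx2
  change ∃ n ∈ B, 1 ≤ n ∧ |(n : ℝ) - ∑ i, α i * (F i (m i) : ℝ)| ≤ 2 * (∑ i, (F i (m i) : ℝ)) ^ κ'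
  rw [← hQ, ← hL]
  by_cases hxV : x < V
  · have hfl := Nat.floor_le (show 0 ≤ x by linarith)
    have hfl2 := Nat.lt_floor_add_one x
    refine ⟨⌊x⌋₊, ?_, Nat.le_floor (by exact_mod_cast hx1), ?_⟩
    · rw [hB]
      left
      exact (Nat.floor_lt (by linarith)).2 hxV
    · rw [abs_le]
      constructor <;> linarith
  · push Not at hxV
    have hx0 : x₀ ≤ x := by
      have := Nat.le_ceil x₀
      rw [← hV] at this
      linarith
    rw [hθ] at hx3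
    obtain ⟨t, htS, ht1, ht2⟩ := h.near x hx0 hx3
    rw [← hθ] at ht2
    have ht0 := h.pos t htS
    have hfl := Nat.floor_le (show 0 ≤ t by linarith)
    have hfl2 := Nat.lt_floor_add_one t
    have hxQ : x ≤ (A + 1) * Q := by
      have h5 : Q ^ κ ≤ Q ^ (1 : ℝ) := Real.rpow_le_rpow_of_exponent_le hQ1 (by linarith)
      rw [Real.rpow_one] at h5
      have h6 := le_abs_self L
      nlinarith
    have hxθ : x ^ θ ≤ (A + 1) * Q ^ θ := by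
      calc x ^ θ ≤ ((A + 1) * Q) ^ θ := Real.rpow_le_rpow (by linarith) hxQ hθ0
        _ = (A + 1) ^ θ * Q ^ θ := Real.mul_rpow (by linarith) (by linarith)
        _ ≤ (A + 1) ^ (1 : ℝ) * Q ^ θ := by
          apply mul_le_mul_of_nonneg_right _ (by positivity)
          exact Real.rpow_le_rpow_of_exponent_le (by linarith) hθ1
        _ = (A + 1) * Q ^ θ := by rw [Real.rpow_one]
    have hbig : A + 2 ≤ Q ^ (η / 2) := by
      have h5 : (A + 2) ^ (2 / η) ≤ Q := by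
        have := Nat.le_ceil ((A + 2) ^ (2 / η))
        rw [← hV'] at this
        linarith
      have h6 : ((A + 2) ^ (2 / η)) ^ (η / 2) = A + 2 := by
        rw [← Real.rpow_mul (by linarith)]
        have : 2 / η * (η / 2) = 1 := by field_simp
        rw [this, Real.rpow_one]
      rw [← h6]
      exact Real.rpow_le_rpow (by positivity) h5 (by linarith)
    have hθκ : (A + 2) * Q ^ θ ≤ Q ^ κ' := by
      calc (A + 2) * Q ^ θ ≤ Q ^ (η / 2) * Q ^ θ := mul_le_mul_of_nonneg_right hbig (by positivity)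
        _ = Q ^ (η / 2 + θ) := (Real.rpow_add (by linarith) _ _).symm
        _ ≤ Q ^ κ' := Real.rpow_le_rpow_of_exponent_le hQ1 (by linarith)
    have hQθ : 1 ≤ Q ^ θ := Real.one_le_rpow hQ1 hθ0
    refine ⟨⌊t⌋₊, ?_, Nat.le_floor (by exact_mod_cast ht0), ?_⟩
    · rw [hB]
      exact Or.inr ⟨t, htS, rfl⟩
    · rw [abs_le]
      constructor <;> nlinarith

end Pool.Agent.D0H45.PG
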