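import Pool.Agent.D0H45.PG.Stm
import Pool.Agent.D0H71.CM.Lin

/-! Project PG: intervals near the powers of real linear forms in the values of compositions of multiplicative functions are
rich. -/

set_option autoImplicit false

namespace Pool.Agent.D0H45.PG

open Finset Classical Pool.Agent.Q240.KS
open Pool.Agent.D0H71.CM (Comp av_comp comp_pos NearLin count_near_lin ckeep_tuples)

/-- the integer parts of the numbers `t ^ (1 / b)`, `t ∈ S`, and the numbers below `V` -/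
def PSet (S : Set ℝ) (b : ℝ) (V : ℕ) : Set ℕ := {n : ℕ | n < V ∨ ∃ t ∈ S, ⌊t ^ (1 / b)⌋₊ = n}

/-- the number of the elements of `PSet` -/
lemma count_root {lam e0 c η x₀ : ℝ} {S : Set ℝ} (h : Grid lam e0 c η x₀ S) {b : ℝ} (hb : 1 ≤ b) (V : ℕ) :
    ∃ C : ℝ, ∀ X : ℕ, 1 ≤ X →
      (((Icc 1 X).filter (fun n => n ∈ PSet S b V)).card : ℝ) ≤ C * (X : ℝ) ^ (b * (e0 - η)) := by
  obtain ⟨C, hC⟩ := h.count
  have hη := h.η0
  have hη2 := h.η2
  have hb0 : 0 < b := by linarith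
  refine ⟨V + C * (2 ^ b) ^ (e0 - η), fun X hX => ?_⟩
  have hX1 : (1 : ℝ) ≤ X := by exact_mod_cast hX
  obtain ⟨K, hK⟩ : ∃ K : ℝ, K = (2 * X) ^ b := ⟨_, rfl⟩
  have hK1 : 1 ≤ K := by rw [hK]; exact Real.one_le_rpow (by linarith) hb0.le
  obtain ⟨hfin, hcard⟩ := hC K hK1
  have he : 0 ≤ b * (e0 - η) := mul_nonneg hb0.le (by linarith)
  have hp : 1 ≤ (X : ℝ) ^ (b * (e0 - η)) := Real.one_le_rpow hX1 he
  have h1 : ((Icc 1 X).filter (fun n => n ∈ PSet S b V)) ⊆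
      range V ∪ hfin.toFinset.image (fun t => ⌊t ^ (1 / b)⌋₊) := by
    intro n hn
    rw [mem_filter, mem_Icc] at hn
    obtain ⟨⟨h1, h2⟩, h3⟩ := hn
    rw [mem_union, mem_range, mem_image]
    rcases h3 with h3 | ⟨t, ht, htn⟩
    · exact Or.inl h3
    · right
      refine ⟨t, ?_, htn⟩
      rw [Set.Finite.mem_toFinset]
      refine ⟨ht, ?_⟩
      have ht0 := h.pos t ht
      have h4 := Nat.lt_floor_add_one (t ^ (1 / b))
      rw [htn] at h4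
      have h5 : (n : ℝ) ≤ X := by exact_mod_cast h2
      have h6 : t ^ (1 / b) ≤ 2 * X := by linarith
      have h7 : t = (t ^ (1 / b)) ^ b := by
        rw [← Real.rpow_mul (by linarith), one_div_mul_cancel hb0.ne', Real.rpow_one]
      rw [h7, hK]
      exact Real.rpow_le_rpow (by positivity) h6 hb0.le
  have h2 : (((Icc 1 X).filter (fun n => n ∈ PSet S b V)).card : ℝ) ≤
      V + ({t | t ∈ S ∧ t ≤ K}.ncard : ℝ) := by
    have h3 := (card_le_card h1).trans (card_union_le _ _)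
    have h4 : (hfin.toFinset.image (fun t => ⌊t ^ (1 / b)⌋₊)).card ≤ {t | t ∈ S ∧ t ≤ K}.ncard := by
      rw [Set.ncard_eq_toFinset_card _ hfin]
      exact card_image_le
    rw [card_range] at h3
    have h5 := h3.trans (Nat.add_le_add_left h4 V)
    generalize {t | t ∈ S ∧ t ≤ K}.ncard = K' at h5
    exact_mod_cast h5
  calc _ ≤ (V : ℝ) + ({t | t ∈ S ∧ t ≤ K}.ncard : ℝ) := h2
    _ ≤ V * (X : ℝ) ^ (b * (e0 - η)) + C * K ^ (e0 - η) :=
      add_le_add (le_mul_of_one_le_right (Nat.cast_nonneg _) hp) hcard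
    _ = (V + C * (2 ^ b) ^ (e0 - η)) * (X : ℝ) ^ (b * (e0 - η)) := by
      rw [hK, Real.mul_rpow (by norm_num) (by linarith), Real.mul_rpow (by positivity) (by positivity),
        Real.rpow_mul (by linarith : (0 : ℝ) ≤ X)]
      ring

/-- the root of a point of `S` close to `x` -/
lemma root_close {b θ x t : ℝ} (hb : 1 ≤ b) (hx : 1 ≤ x) (h1 : x ≤ t) (h2 : t ≤ x + x ^ θ) :
    x ^ (1 / b) ≤ t ^ (1 / b) ∧ t ^ (1 / b) ≤ x ^ (1 / b) + (x ^ (1 / b)) ^ (1 - b * (1 - θ)) := by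
  have hb0 : 0 < b := by linarith
  have hx0 : 0 < x := by linarith
  have hib : 0 ≤ 1 / b := by positivity
  have hib1 : 1 / b ≤ 1 := by rw [div_le_one hb0]; exact hb
  refine ⟨Real.rpow_le_rpow hx0.le h1 hib, ?_⟩
  have h3 : x + x ^ θ = x * (1 + x ^ (θ - 1)) := by
    have e : x ^ θ = x * x ^ (θ - 1) := by
      calc x ^ θ = x ^ (1 + (θ - 1)) := by congr 1; ring
        _ = x ^ (1 : ℝ) * x ^ (θ - 1) := Real.rpow_add hx0 _ _
        _ = x * x ^ (θ - 1) := by rw [Real.rpow_one]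
    rw [mul_add, mul_one, ← e]
  have hu : 0 ≤ x ^ (θ - 1) := by positivity
  have h4 : (1 + x ^ (θ - 1)) ^ (1 / b) ≤ 1 + (1 / b) * x ^ (θ - 1) :=
    _root_.rpow_one_add_le_one_add_mul_self (by linarith) hib hib1
  have h5 : (1 + x ^ (θ - 1)) ^ (1 / b) ≤ 1 + x ^ (θ - 1) := by nlinarith
  have h6 : (x ^ (1 / b)) ^ (1 - b * (1 - θ)) = x ^ (1 / b) * x ^ (θ - 1) := by
    rw [← Real.rpow_mul hx0.le, ← Real.rpow_add hx0]
    congr 1
    field_simp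
    ring
  calc t ^ (1 / b) ≤ (x * (1 + x ^ (θ - 1))) ^ (1 / b) := by
        rw [← h3]
        exact Real.rpow_le_rpow (by linarith) h2 hib
    _ = x ^ (1 / b) * (1 + x ^ (θ - 1)) ^ (1 / b) := Real.mul_rpow hx0.le (by linarith)
    _ ≤ x ^ (1 / b) * (1 + x ^ (θ - 1)) := mul_le_mul_of_nonneg_left h5 (by positivity)
    _ = _ := by rw [h6]; ring

/-- **LIN2**: intervals near the `b`-th powers of real linear forms in the values of compositions are rich -/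
theorem lin2 {lam e0 c η x₀ : ℝ} {S : Set ℝ} (h : Grid lam e0 c η x₀ S) (hle : e0 ≤ lam) {b κ : ℝ} (hb : 1 ≤ b)
    (hκ : 0 ≤ κ) (hκ1 : κ + b * e0 ≤ 1) {k : ℕ} {F : Fin k → ℕ → ℕ} (hF : ∀ i, Comp (F i)) {α : Fin k → ℝ} (hα : α ≠ 0)
    (U : ℕ) :
    ∃ N₀ : ℕ, ∀ N : ℕ, N₀ ≤ N →
      ({m : Fin k → ℕ | (∀ i, 1 ≤ m i ∧ m i ≤ N) ∧ ¬ ∀ x : ℝ, 1 ≤ x →
        |x ^ (1 / b) - ∑ i, α i * (F i (m i) : ℝ)| ≤ (∑ i, (F i (m i) : ℝ)) ^ κ →
        c * x ^ (1 - lam - η) / Real.log x ≤ (pic x (x ^ (1 - lam - η)) : ℝ)}.ncard : ℝ) ≤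
        (N : ℝ) ^ k / Real.log N ^ U := by
  have hη := h.η0
  have hη1 := h.η1
  have hη2 := h.η2
  have hb0 : 0 < b := by linarith
  have hbe : 0 ≤ b * e0 := by nlinarith
  obtain ⟨j, hj⟩ : ∃ j, α j ≠ 0 := by
    by_contra hcon
    push Not at hcon
    exact hα (funext hcon)
  have hk : 1 ≤ k := by
    have := j.2
    omega
  have hkr : (1 : ℝ) ≤ k := by exact_mod_cast hk
  obtain ⟨θ, hθ⟩ : ∃ θ : ℝ, θ = 1 - lam - η := ⟨_, rfl⟩
  rw [← hθ]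
  obtain ⟨ρ, hρ⟩ : ∃ ρ : ℝ, ρ = max (1 - b * (1 - θ)) 0 := ⟨_, rfl⟩
  have hρ0 : 0 ≤ ρ := by rw [hρ]; exact le_max_right _ _
  have hρ1 : ρ ≤ 1 := by
    rw [hρ]
    refine max_le ?_ zero_le_one
    have : 0 ≤ b * (1 - θ) := mul_nonneg hb0.le (by rw [hθ]; nlinarith)
    linarith
  obtain ⟨κ', hκ'⟩ : ∃ κ' : ℝ, κ' = max κ ρ + η / 2 := ⟨_, rfl⟩
  have hκκ : κ ≤ κ' := by rw [hκ']; linarith [le_max_left κ ρ]
  have hκρ : ρ + η / 2 ≤ κ' := by rw [hκ']; linarith [le_max_right κ ρ]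
  have hκ'0 : 0 ≤ κ' := by linarith
  have hbη : η ≤ b * η := by nlinarith
  have hlt : b * (e0 - η) + κ' < 1 := by
    rw [hκ', mul_sub]
    rcases max_choice κ ρ with hm | hm <;> rw [hm]
    · linarith
    · rw [hρ]
      rcases max_choice (1 - b * (1 - θ)) 0 with hm' | hm' <;> rw [hm']
      · rw [hθ]
        have : b * e0 ≤ b * lam := mul_le_mul_of_nonneg_left hle hb0.le
        nlinarith
      · linarith
  obtain ⟨A, hA⟩ : ∃ A : ℝ, A = ∑ i, |α i| := ⟨_, rfl⟩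
  have hA0 : 0 ≤ A := by rw [hA]; exact sum_nonneg fun i _ => abs_nonneg _
  obtain ⟨V, hV⟩ : ∃ V : ℕ, V = ⌈x₀⌉₊ := ⟨_, rfl⟩
  obtain ⟨V', hV'⟩ : ∃ V' : ℕ, V' = ⌈(A + 2) ^ (2 / η)⌉₊ := ⟨_, rfl⟩
  obtain ⟨C, hC⟩ := count_root h hb V
  obtain ⟨B, hB⟩ : ∃ B : Set ℕ, B = PSet S b V := ⟨_, rfl⟩
  rw [← hB] at hC
  obtain ⟨C₀, hC₀⟩ := count_near_lin α hα (B := B) (C := C) (θ := b * (e0 - η)) (κ := κ')
    (mul_nonneg hb0.le (by linarith)) hκ'0 hlt hC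
  obtain ⟨W, hW⟩ : ∃ W : Set (Fin k → ℕ), W = NearLin α κ' B ∪ {w | ∀ i, w i ≤ V'} := ⟨_, rfl⟩
  have hc1 : 1 - b * (e0 - η) - κ' ≤ k := by
    have : 0 ≤ b * (e0 - η) := mul_nonneg hb0.le (by linarith)
    linarith
  have hcW : ∀ X : ℕ, 1 ≤ X → ({w : Fin k → ℕ | w ∈ W ∧ ∀ i, 1 ≤ w i ∧ w i ≤ X}.ncard : ℝ) ≤
      (C₀ + (V' + 1) ^ k) * (X : ℝ) ^ ((k : ℝ) - (1 - b * (e0 - η) - κ')) := by
    intro X hX
    have hX1 : (1 : ℝ) ≤ X := by exact_mod_cast hX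
    have hp : 1 ≤ (X : ℝ) ^ ((k : ℝ) - (1 - b * (e0 - η) - κ')) := Real.one_le_rpow hX1 (by linarith)
    have h1 : {w : Fin k → ℕ | w ∈ W ∧ ∀ i, 1 ≤ w i ∧ w i ≤ X} ⊆
        {w : Fin k → ℕ | w ∈ NearLin α κ' B ∧ ∀ i, 1 ≤ w i ∧ w i ≤ X} ∪
          (Fintype.piFinset (fun _ : Fin k => range (V' + 1)) : Finset (Fin k → ℕ)) := by
      rintro w ⟨h1, h2⟩
      rw [hW] at h1
      rcases h1 with h1 | h1
      · exact Or.inl ⟨h1, h2⟩
      · right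
        rw [mem_coe, Fintype.mem_piFinset]
        intro i
        rw [mem_range]
        exact Nat.lt_succ_of_le (h1 i)
    have hf1 : {w : Fin k → ℕ | w ∈ NearLin α κ' B ∧ ∀ i, 1 ≤ w i ∧ w i ≤ X}.Finite := by
      apply (Set.Finite.pi' fun _ : Fin k => Set.finite_Icc 1 X).subset
      intro w hw i
      exact hw.2 i
    have h2 := Set.ncard_le_ncard h1 (hf1.union (finite_toSet _))
    have h3 := h2.trans (Set.ncard_union_le _ _)
    rw [Set.ncard_coe_finset, Fintype.card_piFinset, prod_const, card_range, card_univ, Fintype.card_fin] at h3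
    have h4 : ({w : Fin k → ℕ | w ∈ W ∧ ∀ i, 1 ≤ w i ∧ w i ≤ X}.ncard : ℝ) ≤
        ({w : Fin k → ℕ | w ∈ NearLin α κ' B ∧ ∀ i, 1 ≤ w i ∧ w i ≤ X}.ncard : ℝ) + ((V' : ℝ) + 1) ^ k := by
      exact_mod_cast h3
    have h5 := hC₀ X hX
    have h6 : ((V' : ℝ) + 1) ^ k ≤ ((V' : ℝ) + 1) ^ k * (X : ℝ) ^ ((k : ℝ) - (1 - b * (e0 - η) - κ')) :=
      le_mul_of_one_le_right (by positivity) hp
    rw [add_mul]
    linarith
  obtain ⟨N₀, hN₀⟩ := ckeep_tuples (F := F) (fun i => av_comp (hF i)) (c := 1 - b * (e0 - η) - κ') (by linarith)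
    hc1 U (C₀ + (V' + 1) ^ k)
  refine ⟨N₀, fun N hN => le_trans ?_ (hN₀ N hN W hcW)⟩
  have hfin : {m : Fin k → ℕ | (∀ i, 1 ≤ m i ∧ m i ≤ N) ∧ (fun i => F i (m i)) ∈ W}.Finite := by
    apply (Set.Finite.pi' fun _ : Fin k => Set.finite_Icc 1 N).subset
    intro m hm i
    exact hm.1 i
  refine Nat.cast_le.2 (Set.ncard_le_ncard ?_ hfin)
  rintro m ⟨h3, h4⟩
  refine ⟨h3, ?_⟩
  push Not at h4
  obtain ⟨x, hx1, hx2, hx3⟩ := h4
  rw [hW]
  obtain ⟨Q, hQ⟩ : ∃ Q : ℝ, Q = ∑ i, (F i (m i) : ℝ) := ⟨_, rfl⟩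
  obtain ⟨L, hL⟩ : ∃ L : ℝ, L = ∑ i, α i * (F i (m i) : ℝ) := ⟨_, rfl⟩
  obtain ⟨z, hz⟩ : ∃ z : ℝ, z = x ^ (1 / b) := ⟨_, rfl⟩
  rw [← hQ, ← hL, ← hz] at hx2
  have hz1 : 1 ≤ z := by rw [hz]; exact Real.one_le_rpow hx1 (by positivity)
  have hpos : ∀ i, (1 : ℝ) ≤ (F i (m i) : ℝ) := fun i => by
    exact_mod_cast comp_pos (hF i) _ (h3 i).1
  have hle1 : ∀ i, (F i (m i) : ℝ) ≤ Q := by
    intro i
    rw [hQ]
    exact single_le_sum (f := fun i => (F i (m i) : ℝ)) (fun i _ => by linarith [hpos i]) (mem_univ i)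
  have hQ1 : 1 ≤ Q := (hpos j).trans (hle1 j)
  by_cases hsmall : Q ≤ V'
  · right
    intro i
    have := (hle1 i).trans hsmall
    exact_mod_cast this
  left
  push Not at hsmall
  have hLA : |L| ≤ A * Q := by
    rw [hL, hA, sum_mul]
    refine (abs_sum_le_sum_abs _ _).trans (sum_le_sum fun i _ => ?_)
    rw [abs_mul, abs_of_nonneg (show (0 : ℝ) ≤ F i (m i) by linarith [hpos i])]
    exact mul_le_mul_of_nonneg_left (hle1 i) (abs_nonneg _)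
  have hp1 : 1 ≤ Q ^ κ' := Real.one_le_rpow hQ1 hκ'0
  have hp2 : Q ^ κ ≤ Q ^ κ' := Real.rpow_le_rpow_of_exponent_le hQ1 hκκ
  obtain ⟨a1, a2⟩ := abs_le.1 hx2
  change ∃ n ∈ B, 1 ≤ n ∧ |(n : ℝ) - ∑ i, α i * (F i (m i) : ℝ)| ≤ 2 * (∑ i, (F i (m i) : ℝ)) ^ κ'
  rw [← hQ, ← hL]
  by_cases hxV : z < V
  · have hfl := Nat.floor_le (show 0 ≤ z by linarith)
    have hfl2 := Nat.lt_floor_add_one z
    refine ⟨⌊z⌋₊, ?_, Nat.le_floor (by exact_mod_cast hz1), ?_⟩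
    · rw [hB]
      left
      exact (Nat.floor_lt (by linarith)).2 hxV
    · rw [abs_le]
      constructor <;> linarith
  · push Not at hxV
    have hzx : z ≤ x := by
      rw [hz]
      calc x ^ (1 / b) ≤ x ^ (1 : ℝ) := Real.rpow_le_rpow_of_exponent_le hx1 (by rw [div_le_one hb0]; exact hb)
        _ = x := Real.rpow_one x
    have hx0 : x₀ ≤ x := by
      have := Nat.le_ceil x₀
      rw [← hV] at this
      linarith
    rw [hθ] at hx3
    obtain ⟨t, htS, ht1, ht2⟩ := h.near x hx0 hx3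
    rw [← hθ] at ht2
    have ht0 := h.pos t htS
    obtain ⟨r1, r2⟩ := root_close hb hx1 ht1 ht2
    obtain ⟨s, hs⟩ : ∃ s : ℝ, s = t ^ (1 / b) := ⟨_, rfl⟩
    rw [← hs, ← hz] at r1 r2
    have hfl := Nat.floor_le (show 0 ≤ s by linarith)
    have hfl2 := Nat.lt_floor_add_one s
    have hxQ : z ≤ (A + 1) * Q := by
      have h5 : Q ^ κ ≤ Q ^ (1 : ℝ) := Real.rpow_le_rpow_of_exponent_le hQ1 (by linarith)
      rw [Real.rpow_one] at h5
      have h6 := le_abs_self L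
      nlinarith
    have hxθ : z ^ (1 - b * (1 - θ)) ≤ (A + 1) * Q ^ ρ := by
      calc z ^ (1 - b * (1 - θ)) ≤ z ^ ρ := by
            apply Real.rpow_le_rpow_of_exponent_le hz1
            rw [hρ]
            exact le_max_left _ _
        _ ≤ ((A + 1) * Q) ^ ρ := Real.rpow_le_rpow (by linarith) hxQ hρ0
        _ = (A + 1) ^ ρ * Q ^ ρ := Real.mul_rpow (by linarith) (by linarith)
        _ ≤ (A + 1) ^ (1 : ℝ) * Q ^ ρ := by
          apply mul_le_mul_of_nonneg_right _ (by positivity)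
          exact Real.rpow_le_rpow_of_exponent_le (by linarith) hρ1
        _ = (A + 1) * Q ^ ρ := by rw [Real.rpow_one]
    have hbig : A + 2 ≤ Q ^ (η / 2) := by
      have h5 : (A + 2) ^ (2 / η) ≤ Q := by
        have := Nat.le_ceil ((A + 2) ^ (2 / η))
        rw [← hV'] at this
        linarith
      have h6 : ((A + 2) ^ (2 / η)) ^ (η / 2) = A + 2 := by
        rw [← Real.rpow_mul (by linarith)]
        have : 2 / η * (η / 2) = 1 := by field_simp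
        rw [this, Real.rpow_one]
      rw [← h6]
      exact Real.rpow_le_rpow (by positivity) h5 (by linarith)
    have hθκ : (A + 2) * Q ^ ρ ≤ Q ^ κ' := by
      calc (A + 2) * Q ^ ρ ≤ Q ^ (η / 2) * Q ^ ρ := mul_le_mul_of_nonneg_right hbig (by positivity)
        _ = Q ^ (η / 2 + ρ) := (Real.rpow_add (by linarith) _ _).symm
        _ ≤ Q ^ κ' := Real.rpow_le_rpow_of_exponent_le hQ1 (by linarith)
    have hQρ : 1 ≤ Q ^ ρ := Real.one_le_rpow hQ1 hρ0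
    refine ⟨⌊s⌋₊, ?_, Nat.le_floor (by push_cast; linarith), ?_⟩
    · rw [hB]
      exact Or.inr ⟨t, htS, by rw [hs]⟩
    · rw [abs_le]
      constructor <;> nlinarith

end Pool.Agent.D0H45.PG
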