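import Mathlib
import Pool.Agent.Q240.KS.Stm2

/-!
# Project PG (MP_3998cf_nt, slot 4): square roots of primes near the values of compositions, and sums of two square roots

`Pool.Agent.Q240.KS.pic y h` is the number of the primes in `(y, y + h]`, and `MAINP lam e0` says that there are few poor
intervals. `MAINP (1 / 2) 0.306` and `MAINP (13 / 16) (13 / 16)` are proved in `Pool.Agent.Q278.KT.Fin`. All logarithms are
natural. Everything below is elementary (use only Mathlib and this file; compile against verbatim copies of `pic` and `MAINP`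
if the closure is not built).
-/

set_option autoImplicit false

namespace Pool.Agent.D0H45.PG

open Finset Pool.Agent.Q240.KS

/-- a sparse set `S` of real numbers which meets all poor intervals `(x, x + x^θ]`, `θ = 1 - lam - η` (conclusion of GRID) -/
structure Grid (lam e0 c η x₀ : ℝ) (S : Set ℝ) : Prop where
  c0 : 0 < c
  η0 : 0 < η
  η1 : 2 * η ≤ 1 - lam
  η2 : 2 * η ≤ e0
  x0 : 3 ≤ x₀
  pos : ∀ t ∈ S, 1 ≤ t
  count : ∃ C : ℝ, ∀ X : ℝ, 1 ≤ X → {t | t ∈ S ∧ t ≤ X}.Finite ∧ ({t | t ∈ S ∧ t ≤ X}.ncard : ℝ) ≤ C * X ^ (e0 - η)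
  near : ∀ x : ℝ, x₀ ≤ x → (pic x (x ^ (1 - lam - η)) : ℝ) < c * x ^ (1 - lam - η) / Real.log x →
    ∃ t ∈ S, x ≤ t ∧ t ≤ x + x ^ (1 - lam - η)

/-- **GRID**. Proof. Let `c₁, η₁, Y₀` be the constants of `MAINP`, `η = min (η₁ / 2) (min ((1 - lam) / 4) (e0 / 4))`, `Y_j = j / 4`,
`h_j = exp ((1 - lam - 2 η) Y_j)`; `h_j ≤ exp (0.9 Y_j)` as `lam ≥ 1 / 10`, and `h_j ≥ exp ((1 - lam - η₁) Y_j)`. Let `S_j` be the set of
the `t = k h_j`, `k` natural, with `t ≥ 1`, `|log t - Y_j| ≤ 2 / 5` and `pic t h_j < c₁ h_j / Y_j`, and `S` the union of the `S_j` with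
`Y_j ≥ max Y₀ 1`. `S_j` is finite (`t ≤ exp (Y_j + 1)`), its elements differ by at least `h_j`, so it has at most
`exp ((e0 - η₁) Y_j) ≤ exp ((e0 - 2 η) Y_j)` elements. An element `t ≤ X` lies in an `S_j` with `Y_j ≤ log X + 2 / 5`, so
`j ≤ 4 log X + 2`: at most `(4 log X + 3) exp ((e0 - 2 η) (log X + 1)) ≤ C X ^ (e0 - η)` elements (`log X ≤ X ^ η / η`). Put `c = c₁ / 4`.
Let `x` be large, `H = x ^ (1 - lam - η)`, `(x, x + H]` poor, `j = ⌊4 log x⌋`, so `Y_j ≤ log x < Y_j + 1 / 4`, and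
`H / h_j ≥ exp (η (2 Y_j - log x)) ≥ exp (η (log x - 1)) ≥ 8`. Let `k = ⌈x / h_j⌉`, `M = ⌊H / h_j⌋ - 1`; the intervals `(t_i, t_i + h_j]`,
`t_i = (k + i) h_j`, `0 ≤ i < M`, are disjoint and contained in `(x, x + H]`, and `x ≤ t_i ≤ x + H`,
`log x ≤ log t_i ≤ log x + H / x ≤ log x + 1 / 10` (`H ≤ x ^ 0.9`, `x` large), so `|log t_i - Y_j| ≤ 2 / 5`. If no `t_i` is in `S` then
`pic t_i h_j ≥ c₁ h_j / Y_j` for all `i`, and `pic x H ≥ M c₁ h_j / Y_j ≥ c₁ (H - 2 h_j) / Y_j ≥ (c₁ / 2) H / log x`, which is not poor.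
(`pic y h + pic (y + h) h' = pic y (h + h')`, and `pic` is monotone for inclusion of intervals.) -/
def S_GRID : Prop := ∀ lam e0 : ℝ, 1 / 10 ≤ lam → lam < 1 → 0 < e0 → MAINP lam e0 →
  ∃ (c η x₀ : ℝ) (S : Set ℝ), Grid lam e0 c η x₀ S

/-- **NTH**. Proof. `p` the `n`-th prime, `p ≥ 2`, so `c p ^ θ / log p > 0` and `pic p (p ^ θ) ≥ 1`: there is a prime `q` in
`(p, p + p ^ θ]`, and the next prime `p'` is at most `q`; `√p' - √p = (p' - p) / (√p' + √p) ≤ p ^ θ / √p`. -/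
def S_NTH : Prop := ∀ (c θ : ℝ) (n : ℕ), 0 < c →
  c * (Nat.nth Nat.Prime n : ℝ) ^ θ / Real.log (Nat.nth Nat.Prime n) ≤
    (pic (Nat.nth Nat.Prime n) ((Nat.nth Nat.Prime n : ℝ) ^ θ) : ℝ) →
  Real.sqrt (Nat.nth Nat.Prime (n + 1)) - Real.sqrt (Nat.nth Nat.Prime n) ≤ (Nat.nth Nat.Prime n : ℝ) ^ (θ - 1 / 2)

/-- **CHEB**. Chebyshev: many primes in `(X / 4, X]` (any proof: Mathlib, the library's prime number theorem, or
`∏_{n < p ≤ 2n} p · ... ` in the binomial coefficient; only some exponent of the logarithm is needed). -/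
def S_CHEB : Prop := ∃ (b X₀ : ℝ), 0 < b ∧ ∀ X : ℝ, X₀ ≤ X →
  b * X / Real.log X ^ 2 ≤ (((Ioc ⌊X / 4⌋₊ ⌊X⌋₊).filter Nat.Prime).card : ℝ)

/-- **SUM1** (for `lam = e0 = 13 / 16`). Proof. Let `θ = 1 - lam - η > 0`, `τ` large, `P` the set of the primes in `(τ² / 16, τ² / 4]`: by
CHEB (with `X = τ² / 4`) `|P| ≥ b' τ² / (log τ)²`. For `p ∈ P`: `√p ∈ (τ / 4, τ / 2]`, `y(p) = (τ - √p)² ∈ [τ² / 4, τ²]`. If
`(y, y + y ^ θ]`, `y = y(p)`, is not poor it contains a prime `q` (`c y ^ θ / log y > 0`), and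
`0 < √q - √y = (q - y) / (√q + √y) ≤ y ^ θ / (2 √y) = y ^ (θ - 1 / 2) / 2 ≤ (τ² / 4) ^ (θ - 1 / 2) / 2 ≤ τ ^ (2 θ - 1)` (if `θ ≤ 1 / 2`, which
holds as `lam ≥ 1 / 2`), `√y = τ - √p`: this is the claim. Suppose that all `y(p)` are poor: for every `p ∈ P` there is
`t ∈ S`, `y(p) ≤ t ≤ y(p) + τ ^ (2 θ)` (so `t ≤ 2 τ²`). For a given `t` the number of such `p` is at most `τ ^ (2 θ) + 1`, because
`|y(p) - y(p')| = |√p - √p'| (2 τ - √p - √p') ≥ (|p - p'| / (√p + √p')) τ ≥ |p - p'|` (`√p + √p' ≤ τ`). So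
`|P| ≤ C (2 τ²) ^ (e0 - η) (τ ^ (2 θ) + 1) ≤ C' τ ^ (2 (e0 - η + 1 - lam - η)) ≤ C' τ ^ (2 - 4 η)`, a contradiction for large `τ`. -/
def S_SUM1 : Prop := S_CHEB → ∀ (lam e0 c η x₀ : ℝ) (S : Set ℝ), Grid lam e0 c η x₀ S → 1 / 2 ≤ lam → e0 ≤ lam →
  ∃ τ₀ : ℝ, ∀ τ : ℝ, τ₀ ≤ τ → ∃ p q : ℕ, p.Prime ∧ q.Prime ∧ 0 < √(p : ℝ) + √(q : ℝ) - τ ∧
    √(p : ℝ) + √(q : ℝ) - τ ≤ τ ^ (2 * (1 - lam - η) - 1)

/-- **SUM2** (for `lam = 1 / 2`, `e0 = 0.306`). Proof. As SUM1, with the primes `q` in `(Q / 4, Q]`, `Q = τ ^ 1.23`, in place of the `p ∈ P`;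
`y(q) = (τ - √q)² ∈ [τ² / 4, τ²]`, `|y(q) - y(q')| ≥ (|q - q'| / (2 √Q)) τ`, so that for a given `t` at most
`τ ^ (2 θ) · 2 √Q / τ + 1 = 2 τ ^ (0.615 - 2 η) + 1` of the `q` have `y(q) ≤ t ≤ y(q) + τ ^ (2 θ)` (`2 θ = 1 - 2 η`); if all were poor,
`b' τ ^ 1.23 / (log τ)² ≤ C (2 τ²) ^ (0.306 - η) (2 τ ^ (0.615 - 2 η) + 1) ≤ C' τ ^ (1.227)`, a contradiction for large `τ`. -/
def S_SUM2 : Prop := S_CHEB → ∀ (c η x₀ : ℝ) (S : Set ℝ), Grid (1 / 2) 0.306 c η x₀ S →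
  ∃ τ₀ : ℝ, ∀ τ : ℝ, τ₀ ≤ τ → ∃ p q : ℕ, p.Prime ∧ q.Prime ∧ (q : ℝ) ≤ τ ^ (1.23 : ℝ) ∧ 0 < √(p : ℝ) + √(q : ℝ) - τ ∧
    √(p : ℝ) + √(q : ℝ) - τ ≤ τ ^ (-2 * η)

end Pool.Agent.D0H45.PG
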